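import Mathlib

set_option autoImplicit false

open Matrix Filter Topology Complex
open scoped ComplexOrder ComplexConjugate

namespace Pool.Agent.H.MP_7884fa_an

lemma lim0 {f : ℝ → ℝ} (hf : Continuous f) (h : ∀ᶠ v in 𝓝[>] (0 : ℝ), f v ≤ 0) : f 0 ≤ 0 :=
  le_of_tendsto (hf.continuousAt.tendsto.mono_left nhdsWithin_le_nhds) h

lemma key {a b c a' b' c' δ : ℝ} (hδ : 0 < δ)
    (h1 : ∀ u, (a' * b - a * b') * (u * u) + 2 * (a' * c - a * c') * u + (b' * c - b * c') ≤ 0)
    (h2 : ∀ w, -δ ≤ w → 0 < a * w ^ 2 + b * w + c) (h3 : c ≤ δ * (c - b)) :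
    (c' - b') * (a * δ ^ 2 - b * δ + c) ≤ (a' * δ ^ 2 - b' * δ + c') * (c - b) := by
  have d := discrim_le_zero_of_nonpos h1
  have g0 := h1 0
  have c0 : 0 < c := by simpa using h2 0 (by linarith)
  have f0 : 0 < a * δ ^ 2 - b * δ + c := by linarith [h2 (-δ) le_rfl, neg_sq δ ▸ le_refl (a * (-δ) ^ 2)]
  have a0 : 0 ≤ a := by
    by_contra! h
    have e := div_mul_cancel₀ (|b| + c + 1) (neg_pos.2 h).ne'
    have e0 : 0 < (|b| + c + 1) / -a := div_pos (by positivity) (neg_pos.2 h)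
    generalize (|b| + c + 1) / -a = w at e e0
    have := h2 (w + 1) (by linarith)
    nlinarith [le_abs_self b, abs_nonneg b]
  rw [discrim] at d
  have id : (a' * b - a * b') * c - (a' * c - a * c') * b + (b' * c - b * c') * a = 0 := by ring
  have X : (a' * δ ^ 2 - b' * δ + c') * c - c' * (a * δ ^ 2 - b * δ + c) =
      -δ * ((a' * c - a * c') * -δ + (b' * c - b * c')) := by ring
  have Y : c * ((a' * δ ^ 2 - b' * δ + c') * (c - b) - (c' - b') * (a * δ ^ 2 - b * δ + c)) =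
      -δ * ((a' * c - a * c') * -δ + (b' * c - b * c')) * (c - b) +
      (a * δ ^ 2 - b * δ + c) * (b' * c - b * c') := by ring
  generalize a' * b - a * b' = α at *
  generalize a' * c - a * c' = β at *
  generalize b' * c - b * c' = γ at *
  have g1 : γ ≤ 0 := by linarith
  have k : γ ^ 2 * a - γ * β * b + β ^ 2 * c ≤ 0 := by nlinarith
  have E : γ * (b - a * δ) ≤ β * c := by
    rcases lt_trichotomy β 0 with h | rfl | h
    · have e := div_mul_cancel₀ γ h.ne
      have e0 : 0 ≤ γ / β := div_nonneg_of_nonpos g1 h.le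
      generalize γ / β = r at e e0
      subst e
      have k1 : a * r ^ 2 - b * r + c ≤ 0 := by nlinarith [mul_pos_of_neg_of_neg h h]
      have k2 : δ ≤ r := by
        by_contra! h'
        nlinarith [h2 (-r) (by linarith)]
      have k3 : c ≤ r * (b - a * δ) := by nlinarith [mul_nonneg (mul_nonneg a0 e0) (sub_nonneg.2 k2)]
      nlinarith
    · rcases g1.eq_or_lt with rfl | g1
      · simp
      have a1 : a = 0 := by nlinarith [mul_pos_of_neg_of_neg g1 g1]
      subst a1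
      have b0 : 0 ≤ b := by
        by_contra! h
        have e := div_mul_cancel₀ c (neg_pos.2 h).ne'
        have := h2 (c / -b) (by linarith [div_pos c0 (neg_pos.2 h)])
        nlinarith
      nlinarith
    · have e := div_mul_cancel₀ γ h.ne'
      have e0 : γ / β ≤ 0 := div_nonpos_of_nonpos_of_nonneg g1 h.le
      generalize γ / β = r at e e0
      subst e
      nlinarith [h2 (-r) (by linarith), mul_pos h h]
  have Z : -(a * δ ^ 2 - b * δ + c) * γ ≤ -(β * -δ + γ) * c := by nlinarith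
  have Z0 : 0 ≤ -(β * -δ + γ) := by nlinarith [mul_nonneg f0.le (neg_nonneg.2 g1)]
  have : 0 ≤ c * ((a' * δ ^ 2 - b' * δ + c') * (c - b) - (c' - b') * (a * δ ^ 2 - b * δ + c)) := by
    rw [Y]
    nlinarith [mul_le_mul_of_nonneg_left h3 Z0]
  linarith [nonneg_of_mul_nonneg_right this c0]

variable {n : Type} [Fintype n] [DecidableEq n]

def R (c : n → ℂ) : Matrix n n ℂ := vecMulVec c (star c)

def D (c : n → ℂ) (F : Matrix n n ℂ → ℂ) (M : Matrix n n ℂ) : ℂ := F (M + R c) - F M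

def T (a b : n → ℂ) (F : Matrix n n ℂ → ℂ) (M : Matrix n n ℂ) : ℂ := F M - D a F M - D b F M

def Aff (F : Matrix n n ℂ → ℂ) : Prop := ∀ M c (s : ℂ), F (M + s • R c) = F M + s * D c F M

structure Good (F : Matrix n n ℂ → ℂ) : Prop where
  aff : Aff F
  cj : ∀ M, F Mᴴ = conj (F M)
  cont : Continuous F
  stab : ∀ M, (∀ v ≠ 0, 0 < (star v ⬝ᵥ M *ᵥ v).im) → F M ≠ 0

def Ab (F : Matrix n n ℂ → ℂ) (M : Matrix n n ℂ) : Prop :=
  M.IsHermitian ∧ ∀ P : Matrix n n ℂ, P.PosSemidef → 0 < (F (M + P)).re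

omit [DecidableEq n] in
lemma R_psd (c : n → ℂ) : (R c).PosSemidef := posSemidef_vecMulVec_self_star c

omit [DecidableEq n] in
lemma R_form (c v : n → ℂ) : star v ⬝ᵥ R c *ᵥ v = (‖star c ⬝ᵥ v‖ ^ 2 : ℝ) := by
  rw [R, vecMulVec_mulVec, op_smul_eq_smul, dotProduct_smul, star_dotProduct v c, smul_eq_mul,
    ← Complex.normSq_eq_norm_sq, ← Complex.mul_conj]
  rfl

lemma good_det : Good (det : Matrix n n ℂ → ℂ) where
  aff M c s := by
    have h : ∀ s : ℂ, det (M + s • R c) = det (updateCol (fromBlocks M 0 (replicateRow Unit (star c)) 1)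
        (Sum.inr ()) (Sum.elim (0 : n → ℂ) (1 : Unit → ℂ) + s • Sum.elim (-c) 0)) := fun s => by
      have : updateCol (fromBlocks M 0 (replicateRow Unit (star c)) 1) (Sum.inr ())
          (Sum.elim (0 : n → ℂ) (1 : Unit → ℂ) + s • Sum.elim (-c) 0) =
          fromBlocks M (replicateCol Unit (-(s • c))) (replicateRow Unit (star c)) 1 := by
        ext (i | i) (j | j) <;> simp
      rw [this, det_fromBlocks_one₂₂]
      congr 1
      ext i j
      simp [R, mul_apply, vecMulVec_apply, mul_assoc]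
    have h0 := h 0
    have h1 := h 1
    rw [det_updateCol_add, det_updateCol_smul] at h0 h1
    rw [h s, det_updateCol_add, det_updateCol_smul, D]
    simp only [zero_smul, add_zero, one_smul] at h0 h1
    rw [h1, h0]
    ring
  cj M := det_conjTranspose M
  cont := continuous_id.matrix_det
  stab M h e := by
    obtain ⟨v, h1, h2⟩ := exists_mulVec_eq_zero_iff.2 e
    simpa [h2] using h v h1

omit [Fintype n] [DecidableEq n] in
lemma Aff.D {F : Matrix n n ℂ → ℂ} (h : Aff F) (c : n → ℂ) : Aff (D c F) := fun M e s => by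
  simp only [H.MP_7884fa_an.D]
  rw [add_right_comm M, h, h, add_right_comm M (R e)]
  simp only [H.MP_7884fa_an.D]
  ring

variable {F : Matrix n n ℂ → ℂ}

omit [DecidableEq n] in
lemma Good.im_lt (h : Good F) {M : Matrix n n ℂ} (hM : ∀ v ≠ 0, 0 < (star v ⬝ᵥ M *ᵥ v).im)
    (c : n → ℂ) : D c F M = 0 ∨ (D c F M * conj (F M)).im < 0 := by
  refine or_iff_not_imp_left.2 fun h0 => ?_
  by_contra! h1
  refine h.stab (M + (-F M / D c F M) • R c) (fun v hv => ?_) (by rw [h.aff]; field_simp; ring)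
  have : 0 ≤ (-F M / D c F M).im := by
    rw [Complex.div_im, ← sub_div]
    refine div_nonneg ?_ (normSq_nonneg _)
    simp at h1 ⊢
    linarith
  rw [add_mulVec, smul_mulVec, dotProduct_add, dotProduct_smul, R_form, add_im, smul_eq_mul,
    im_mul_ofReal]
  exact add_pos_of_pos_of_nonneg (hM v hv) (mul_nonneg this (by positivity))

omit [DecidableEq n] in
lemma Good.T (h : Good F) (a b : n → ℂ) : Good (T a b F) where
  aff M c s := by
    have h1 := h.aff.D a M c s
    have h2 := h.aff.D b M c s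
    simp only [H.MP_7884fa_an.T, H.MP_7884fa_an.D] at h1 h2 ⊢
    rw [h1, h2, h.aff]
    simp only [H.MP_7884fa_an.D]
    ring
  cj M := by
    have e : ∀ c, F (Mᴴ + R c) = conj (F (M + R c)) := fun c => by
      rw [← h.cj, conjTranspose_add, (R_psd c).1.eq]
    simp only [H.MP_7884fa_an.T, H.MP_7884fa_an.D, e, h.cj, map_sub]
  cont := by
    have := h.cont
    unfold H.MP_7884fa_an.T H.MP_7884fa_an.D
    fun_prop
  stab M hM e := by
    have e1 : F M = D a F M + D b F M := by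
      rw [H.MP_7884fa_an.T] at e
      linear_combination e
    have e2 : (D a F M * conj (F M)).im + (D b F M * conj (F M)).im = 0 := by
      rw [← add_im, ← add_mul, ← e1, mul_conj, ofReal_im]
    rcases h.im_lt hM a with h1 | h1 <;> rcases h.im_lt hM b with h2 | h2
    · exact h.stab M hM (by rw [e1, h1, h2, add_zero])
    · simp only [h1, zero_mul, zero_im] at e2
      linarith
    · simp only [h2, zero_mul, zero_im] at e2
      linarith
    · linarith

lemma Good.im_le (h : Good F) {N P : Matrix n n ℂ} (hN : N.IsHermitian) (hP : P.PosSemidef) {w : ℂ}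
    (hw : 0 ≤ w.im) (c : n → ℂ) : (D c F (N + w • P) * conj (F (N + w • P))).im ≤ 0 := by
  have := h.cont
  have := lim0 (f := fun η : ℝ => (D c F (N + w • P + (η * I) • 1) *
      conj (F (N + w • P + (η * I) • 1))).im) (by unfold D; fun_prop)
    (eventually_nhdsWithin_of_forall fun η hη => by
      refine (h.im_lt (M := N + w • P + (η * I) • 1) (fun v hv => ?_) c).elim
        (fun h1 => by simp [h1]) le_of_lt
      have a1 := hN.im_star_dotProduct_mulVec_self v
      obtain ⟨a2, a3⟩ := Complex.nonneg_iff.1 (hP.dotProduct_mulVec_nonneg v)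
      obtain ⟨a4, a5⟩ := Complex.pos_iff.1 ((PosDef.one (n := n) (R := ℂ)).dotProduct_mulVec_pos hv)
      simp only [add_mulVec, smul_mulVec, dotProduct_add, dotProduct_smul, add_im, smul_eq_mul,
        mul_im, ← a3, ← a5, mul_re, ofReal_re, ofReal_im, I_re, I_im, RCLike.im_to_complex] at a1 ⊢
      nlinarith [mul_nonneg hw a2, mul_pos (show 0 < η from hη) a4])
  simpa using this

omit [DecidableEq n] in
lemma Good.real (h : Good F) {N : Matrix n n ℂ} (hN : N.IsHermitian) : F N = (F N).re :=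
  (conj_eq_iff_re.1 (by rw [← h.cj, hN.eq])).symm

omit [DecidableEq n] in
lemma Good.realD (h : Good F) {N : Matrix n n ℂ} (hN : N.IsHermitian) (c : n → ℂ) :
    D c F N = (D c F N).re := by
  rw [D, h.real hN, h.real (hN.add (R_psd c).1), ← ofReal_sub, ofReal_re]

omit [DecidableEq n] in
lemma Good.realDD (h : Good F) {N : Matrix n n ℂ} (hN : N.IsHermitian) (c e : n → ℂ) :
    D e (D c F) N = (D e (D c F) N).re := by
  rw [D, h.realD hN, h.realD (hN.add (R_psd e).1), ← ofReal_sub, ofReal_re]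

lemma Good.mono1 (h : Good F) {N : Matrix n n ℂ} (hN : N.IsHermitian) (c e : n → ℂ) :
    (D c F (N + R e)).re * (F N).re ≤ (D c F N).re * (F (N + R e)).re := by
  have := h.im_le hN (R_psd e) (w := I) (by simp) c
  rw [h.aff, h.aff.D, h.realDD hN, h.realD hN c, h.realD hN e, h.real hN] at this
  have e1 : (D e (D c F) N).re = (D c F (N + R e)).re - (D c F N).re := rfl
  have e2 : (D e F N).re = (F (N + R e)).re - (F N).re := rfl
  rw [e1, e2] at this
  simp at this
  linarith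

omit [Fintype n] [DecidableEq n] in
lemma Ab.add {M P : Matrix n n ℂ} (h : Ab F M) (hP : P.PosSemidef) : Ab F (M + P) :=
  ⟨h.1.add hP.1, fun Q hQ => add_assoc M P Q ▸ h.2 _ (hP.add hQ)⟩

omit [Fintype n] [DecidableEq n] in
lemma Ab.pos {M : Matrix n n ℂ} (h : Ab F M) : 0 < (F M).re := by simpa using h.2 0 .zero

lemma Good.mono (h : Good F) {M P : Matrix n n ℂ} (hM : Ab F M) (hP : P.PosSemidef) (c : n → ℂ) :
    (D c F (M + P)).re * (F M).re ≤ (D c F M).re * (F (M + P)).re := by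
  obtain ⟨m, v, rfl⟩ := posSemidef_iff_eq_sum_vecMulVec.1 hP
  rw [← div_le_div_iff₀ (hM.2 _ hP) hM.pos]
  clear hP
  induction (Finset.univ : Finset (Fin m)) using Finset.induction_on with
  | empty => simp
  | insert i s hi ih =>
    have := hM.add (posSemidef_sum s fun j _ => R_psd (v j))
    refine le_trans ?_ ih
    rw [Finset.sum_insert hi, add_comm (vecMulVec _ _), ← add_assoc]
    exact (div_le_div_iff₀ (this.2 _ (R_psd _)) this.pos).2 (h.mono1 this.1 c (v i))

omit [Fintype n] [DecidableEq n] in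
lemma smul_psd {t : ℝ} (ht : 0 ≤ t) {P : Matrix n n ℂ} (hP : P.PosSemidef) :
    ((t : ℂ) • P).PosSemidef := hP.smul (by exact_mod_cast ht)

lemma Good.shift (h : Good F) {M : Matrix n n ℂ} (hM : Ab F M) (c : n → ℂ) {t : ℝ} (ht : 0 ≤ t)
    (h1 : t * (D c F M).re < (F M).re) : Ab F (M + ((-t : ℝ) : ℂ) • R c) := by
  refine ⟨hM.1.add (by simpa using (smul_psd ht (R_psd c)).1.neg), fun P hP => ?_⟩
  rw [add_right_comm, h.aff, add_re, re_ofReal_mul]
  nlinarith [h.mono hM hP c, hM.pos, hM.2 P hP, mul_lt_mul_of_pos_right h1 (hM.2 P hP),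
    mul_le_mul_of_nonneg_left (h.mono hM hP c) ht]

omit [DecidableEq n] in
lemma Good.slope (h : Good F) {M : Matrix n n ℂ} (hM : Ab F M) (c : n → ℂ) : 0 ≤ (D c F M).re := by
  by_contra! h1
  have := hM.2 _ (smul_psd (div_pos hM.pos (neg_pos.2 h1)).le (R_psd c))
  rw [h.aff, add_re, re_ofReal_mul] at this
  have e := div_mul_cancel₀ (F M).re (neg_pos.2 h1).ne'
  linarith

lemma Good.down (h : Good F) {M : Matrix n n ℂ} (hM : Ab F M) {a b v : n → ℂ}
    (h1 : Ab (H.MP_7884fa_an.T a b F) (M + ((-2 : ℝ) : ℂ) • R v)) :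
    Ab F (M + ((-2 : ℝ) : ℂ) • R v) := by
  refine h.shift hM v zero_le_two ?_
  by_contra! h2
  have f0 := hM.pos
  have g0 : 0 < (D v F M).re := by linarith
  have e := div_mul_cancel₀ (F M).re g0.ne'
  have t0 := div_pos f0 g0
  generalize (F M).re / (D v F M).re = t at e t0
  have k : ∀ c, 0 ≤ (D c F (M + ((-t : ℝ) : ℂ) • R v)).re := fun c => by
    have := h.cont
    have := lim0 (f := fun τ : ℝ => -(D c F (M + ((-(t - τ) : ℝ) : ℂ) • R v)).re)
      (by unfold D; fun_prop) (mem_of_superset (Ioo_mem_nhdsGT t0) fun τ hτ => neg_nonpos.2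
        (h.slope (h.shift hM v (by linarith [hτ.2]) (by nlinarith [hτ.1])) c))
    simpa using this
  have k1 := h1.2 _ (smul_psd (show 0 ≤ 2 - t by nlinarith) (R_psd v))
  rw [add_assoc, ← add_smul, ← ofReal_add, show -2 + (2 - t) = -t by ring, H.MP_7884fa_an.T, sub_re,
    sub_re, h.aff, add_re, re_ofReal_mul] at k1
  linarith [k a, k b]

omit [Fintype n] [DecidableEq n] in
lemma Aff.quad (h : Aff F) (N : Matrix n n ℂ) (a b : n → ℂ) (w : ℂ) : F (N + w • (R a + R b)) =
    H.MP_7884fa_an.D a (H.MP_7884fa_an.D b F) N * w ^ 2 +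
    (H.MP_7884fa_an.D a F N + H.MP_7884fa_an.D b F N) * w + F N := by
  rw [smul_add, ← add_assoc, h, h, h.D]
  ring

lemma Good.barrier (h : Good F) {M : Matrix n n ℂ} (hM : Ab F M) {a b : n → ℂ}
    (ha : 6 * (D a F M).re ≤ (F M).re) (hb : 6 * (D b F M).re ≤ (F M).re) :
    Ab (H.MP_7884fa_an.T a b F) M ∧ ∀ c, 6 * (D c F M).re ≤ (F M).re →
      6 * (D c (H.MP_7884fa_an.T a b F) (M + ((3 / 2 : ℝ) : ℂ) • (R a + R b))).re ≤
      (H.MP_7884fa_an.T a b F (M + ((3 / 2 : ℝ) : ℂ) • (R a + R b))).re := by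
  have f0 := hM.pos
  have k : ∀ P : Matrix n n ℂ, P.PosSemidef → (F (M + P)).re ≤
      3 / 2 * ((F (M + P)).re - ((D a F (M + P)).re + (D b F (M + P)).re)) := fun P hP => by
    nlinarith [h.mono hM hP a, h.mono hM hP b, hM.2 P hP]
  refine ⟨⟨hM.1, fun P hP => ?_⟩, fun c hc => ?_⟩
  · simp only [H.MP_7884fa_an.T, sub_re]
    linarith [k P hP, hM.2 P hP]
  have hA := (R_psd a).add (R_psd b)
  have hP := smul_psd (show (0 : ℝ) ≤ 3 / 2 by norm_num) hA
  have k := k _ hP
  have hN := hM.1.add hP.1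
  have e : ∀ w : ℝ, M + ((3 / 2 : ℝ) : ℂ) • (R a + R b) + (w : ℂ) • (R a + R b) =
      M + ((3 / 2 + w : ℝ) : ℂ) • (R a + R b) := fun w => by rw [add_assoc, ← add_smul, ofReal_add]
  generalize M + ((3 / 2 : ℝ) : ℂ) • (R a + R b) = N at *
  have q1 := h.aff.quad N a b
  have q2 := (h.aff.D c).quad N a b
  have r3 : D a (D b (D c F)) N = (D a (D b (D c F)) N).re := by
    rw [D, h.realDD hN, h.realDD (hN.add (R_psd a).1), ← ofReal_sub, ofReal_re]
  rw [h.realDD hN, h.realD hN a, h.realD hN b, h.real hN, ← ofReal_add] at q1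
  rw [r3, h.realDD hN c a, h.realDD hN c b, h.realD hN c, ← ofReal_add] at q2
  have e1 : (D c (H.MP_7884fa_an.T a b F) N).re =
      (D c F N).re - ((D a (D c F) N).re + (D b (D c F) N).re) := by
    simp only [H.MP_7884fa_an.T, D, sub_re, add_right_comm N (R c)]
    ring
  have e2 : (H.MP_7884fa_an.T a b F N).re = (F N).re - ((D a F N).re + (D b F N).re) := by
    simp only [H.MP_7884fa_an.T, sub_re]
    ring
  rw [e1, e2]
  generalize (D a (D b F) N).re = x2 at *
  generalize (D a F N).re + (D b F N).re = x1 at *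
  generalize (F N).re = x0 at *
  generalize (D a (D b (D c F)) N).re = y2 at *
  generalize (D a (D c F) N).re + (D b (D c F) N).re = y1 at *
  generalize (D c F N).re = y0 at *
  have q3 : ∀ w : ℝ, (F (M + ((3 / 2 + w : ℝ) : ℂ) • (R a + R b))).re = x2 * w ^ 2 + x1 * w + x0 :=
    fun w => by rw [← e, q1]; norm_cast
  have q4 := congrArg re (q2 (-(3 / 2) : ℝ))
  have q5 := q3 (-(3 / 2))
  rw [e] at q4
  norm_cast at q4
  simp only [add_neg_cancel, ofReal_zero, zero_smul, add_zero] at q4 q5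
  have := key (a := x2) (b := x1) (c := x0) (a' := y2) (b' := y1) (c' := y0) (δ := 3 / 2)
    (by norm_num) (fun u => ?_) (fun w hw => q3 w ▸ hM.2 _ (smul_psd (by linarith) hA)) k
  · have e3 : x2 * (3 / 2) ^ 2 - x1 * (3 / 2) + x0 = (F M).re := by rw [q5]; ring
    have e4 : y2 * (3 / 2) ^ 2 - y1 * (3 / 2) + y0 = (D c F M).re := by rw [q4]; ring
    rw [e3, e4] at this
    have x3 : 0 < x0 := by simpa using (hM.2 _ (smul_psd (by norm_num) hA)).trans_eq (q3 0)
    nlinarith [mul_le_mul_of_nonneg_right hc (show 0 ≤ x0 - x1 by linarith)]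
  · have := lim0 (f := fun v : ℝ => (y2 * x1 - x2 * y1) * (u * u + v * v) +
      2 * (y2 * x0 - x2 * y0) * u + (y1 * x0 - x1 * y0)) (by fun_prop)
      (eventually_nhdsWithin_of_forall fun v hv => by
        have := h.im_le hN hA (w := u + v * I) (by simpa using le_of_lt hv) c
        rw [q1, q2] at this
        simp [pow_two] at this
        exact le_of_mul_le_mul_left (by linarith) (show 0 < v from hv))
    simpa using this

variable {J : Type} (a b : J → n → ℂ)

def Fl : List J → Matrix n n ℂ → ℂ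
  | [] => det
  | j :: l => T (a j) (b j) (Fl l)

def Inv : List J → Matrix n n ℂ → Prop
  | [], M => Ab det M
  | j :: l, M => Ab (Fl a b (j :: l)) M ∧ Inv l M

lemma Fl_good : ∀ l, Good (Fl a b l)
  | [] => good_det
  | j :: l => (Fl_good l).T (a j) (b j)

variable {a b}

lemma Inv.ab : ∀ {l : List J} {M : Matrix n n ℂ}, Inv a b l M → Ab (Fl a b l) M
  | [], _, h => h
  | _ :: _, _, h => h.1

lemma Inv.add {P : Matrix n n ℂ} (hP : P.PosSemidef) :
    ∀ {l : List J} {M : Matrix n n ℂ}, Inv a b l M → Inv a b l (M + P)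
  | [], _, h => Ab.add h hP
  | _ :: _, _, h => ⟨h.1.add hP, h.2.add hP⟩

lemma Inv.down {v : n → ℂ} : ∀ {l : List J} {M : Matrix n n ℂ}, Inv a b l M →
    Ab (Fl a b l) (M + ((-2 : ℝ) : ℂ) • R v) → Inv a b l (M + ((-2 : ℝ) : ℂ) • R v)
  | [], _, _, h => h
  | _ :: l, _, h, h' => ⟨h', h.2.down ((Fl_good a b l).down h.2.ab h')⟩

lemma inv_start {M : Matrix n n ℂ} (hM : Ab det M)
    (h : ∀ j, 6 * (D (a j) det M).re ≤ (det M).re ∧ 6 * (D (b j) det M).re ≤ (det M).re) (l : List J) :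
    Inv a b l (M + ((3 / 2 : ℝ) : ℂ) • (l.map fun j => R (a j) + R (b j)).sum) ∧ ∀ c,
      6 * (D c det M).re ≤ (det M).re →
      6 * (D c (Fl a b l) (M + ((3 / 2 : ℝ) : ℂ) • (l.map fun j => R (a j) + R (b j)).sum)).re ≤
      (Fl a b l (M + ((3 / 2 : ℝ) : ℂ) • (l.map fun j => R (a j) + R (b j)).sum)).re := by
  induction l with
  | nil => simpa [Inv, Fl] using hM
  | cons j l ih =>
    obtain ⟨h1, h2⟩ := (Fl_good a b l).barrier ih.1.ab (ih.2 _ (h j).1) (ih.2 _ (h j).2)
    have hP := smul_psd (show (0 : ℝ) ≤ 3 / 2 by norm_num) ((R_psd (a j)).add (R_psd (b j)))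
    rw [List.map_cons, List.sum_cons, add_comm (R (a j) + _), smul_add, ← add_assoc]
    exact ⟨⟨h1.add hP, ih.1.add hP⟩, fun c hc => h2 c (ih.2 c hc)⟩

lemma Inv.select [DecidableEq J] {l : List J} (hl : l.Nodup) {M : Matrix n n ℂ} (h : Inv a b l M) :
    ∃ χ : J → Bool,
      Ab det (M + ((-2 : ℝ) : ℂ) • (l.map fun j => R (if χ j then a j else b j)).sum) := by
  induction l generalizing M with
  | nil => exact ⟨fun _ => true, by simpa [Inv] using h⟩
  | cons j l ih =>
    obtain ⟨h1, h2⟩ := List.nodup_cons.1 hl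
    have h3 := h.1.pos
    simp only [Fl, T, sub_re] at h3
    obtain ⟨x, hx⟩ : ∃ x : Bool, 2 * (D (if x then a j else b j) (Fl a b l) M).re < (Fl a b l M).re := by
      by_contra! h4
      have := h4 true
      have := h4 false
      simp only [if_true, Bool.false_eq_true, if_false] at *
      linarith
    obtain ⟨χ, hχ⟩ := ih h2 (h.2.down ((Fl_good a b l).shift h.2.ab _ zero_le_two hx))
    refine ⟨Function.update χ j x, ?_⟩
    rw [List.map_cons, List.sum_cons, Function.update_self, smul_add, ← add_assoc,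
      List.map_congr_left fun i hi => by rw [Function.update_of_ne (ne_of_mem_of_not_mem hi h1)]]
    exact hχ

theorem mss [Fintype J] (a b : J → n → ℂ)
    (h1 : ∀ v, ∑ j, (‖star (a j) ⬝ᵥ v‖ ^ 2 + ‖star (b j) ⬝ᵥ v‖ ^ 2) ≤ ∑ i, ‖v i‖ ^ 2)
    (h2 : ∀ j v, 25 * ‖star (a j) ⬝ᵥ v‖ ^ 2 ≤ ∑ i, ‖v i‖ ^ 2 ∧
      25 * ‖star (b j) ⬝ᵥ v‖ ^ 2 ≤ ∑ i, ‖v i‖ ^ 2) :
    ∃ χ : J → Bool, ∀ v, ∑ j, ‖star (if χ j then a j else b j) ⬝ᵥ v‖ ^ 2 ≤ 7 / 8 * ∑ i, ‖v i‖ ^ 2 := by
  classical
  have one : ∀ v : n → ℂ, star v ⬝ᵥ v = (∑ i, ‖v i‖ ^ 2 : ℝ) := fun v => by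
    simp [dotProduct, Complex.conj_mul']
  have hA : (∑ j, (R (a j) + R (b j))).PosSemidef :=
    posSemidef_sum _ fun j _ => (R_psd _).add (R_psd _)
  have hI := smul_psd (show (0 : ℝ) ≤ 7 / 4 by norm_num) (PosSemidef.one (n := n) (R := ℂ))
  set M : Matrix n n ℂ := ((7 / 4 : ℝ) : ℂ) • 1 - ((3 / 2 : ℝ) : ℂ) • ∑ j, (R (a j) + R (b j))
  have k : ∀ c, (∀ v, 25 * ‖star c ⬝ᵥ v‖ ^ 2 ≤ ∑ i, ‖v i‖ ^ 2) →
      (M + ((-6 : ℝ) : ℂ) • R c).PosDef := fun c hc => by
    refine .of_dotProduct_mulVec_pos ((hI.1.sub (smul_psd (by norm_num) hA).1).add (by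
      simpa using (smul_psd (show (0 : ℝ) ≤ 6 by norm_num) (R_psd c)).1.neg)) fun v hv => ?_
    have := (PosDef.one (n := n) (R := ℂ)).dotProduct_mulVec_pos hv
    rw [one_mulVec, one] at this
    simp only [M, add_mulVec, sub_mulVec, smul_mulVec, sum_mulVec, dotProduct_add, dotProduct_sub,
      dotProduct_smul, dotProduct_sum, R_form, one_mulVec, one, smul_eq_mul]
    simp only [← ofReal_add, ← ofReal_sum, ← ofReal_mul, ← ofReal_sub, zero_lt_real] at this ⊢
    linarith [h1 v, hc v]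
  have k0 : M.PosDef := by simpa [R] using k 0 fun v => by simp [Finset.sum_nonneg]
  have k1 : ∀ c, (∀ v, 25 * ‖star c ⬝ᵥ v‖ ^ 2 ≤ ∑ i, ‖v i‖ ^ 2) →
      6 * (D c det M).re ≤ (det M).re := fun c hc => by
    have := (Complex.pos_iff.1 (k c hc).det_pos).1
    rw [good_det.aff, add_re, re_ofReal_mul] at this
    linarith
  obtain ⟨χ, h3, h4⟩ := (inv_start (a := a) (b := b) ⟨k0.1, fun P hP =>
    (Complex.pos_iff.1 (k0.add_posSemidef hP).det_pos).1⟩ (fun j => ⟨k1 _ fun v => (h2 j v).1,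
      k1 _ fun v => (h2 j v).2⟩) Finset.univ.toList).1.select (Finset.nodup_toList _)
  rw [Finset.sum_map_toList, Finset.sum_map_toList, sub_add_cancel] at h3 h4
  refine ⟨χ, fun v => ?_⟩
  have := (h3.posSemidef_iff_eigenvalues_nonneg.2 fun i => by
    by_contra! h5
    have := h4 _ (smul_psd (neg_pos.2 h5).le PosSemidef.one)
    rw [exists_mulVec_eq_zero_iff.1 ⟨_, (WithLp.ofLp_eq_zero 2).ne.2
      (h3.eigenvectorBasis.orthonormal.ne_zero i), by
        rw [add_mulVec, h3.mulVec_eigenvectorBasis, smul_mulVec, one_mulVec]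
        simp⟩] at this
    simp at this).dotProduct_mulVec_nonneg v
  simp only [add_mulVec, smul_mulVec, sum_mulVec, dotProduct_add, dotProduct_smul, dotProduct_sum,
    R_form, one_mulVec, one, smul_eq_mul] at this
  simp only [← ofReal_add, ← ofReal_sum, ← ofReal_mul, zero_le_real] at this
  linarith

end Pool.Agent.H.MP_7884fa_an
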