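import Mathlib

set_option autoImplicit false

namespace Pool.Agent.H.MP_7884fa_an

open Filter
open scoped NNReal

/-- the complex Hilbert space of square summable functions on `X` -/
abbrev L2 (X : Type) : Type := lp (fun _ : X => ℂ) 2

open Classical in
/-- the standard basis vector at `x` -/
noncomputable def delta {X : Type} (x : X) : L2 X := lp.single 2 x 1

/-- the matrix entry of `T` at `(x, y)` -/
noncomputable def entry {X : Type} (T : L2 X →L[ℂ] L2 X) (x y : X) : ℂ :=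
  inner ℂ (delta x) (T (delta y))

/-- uniformly locally finite -/
def ULF (X : Type) [MetricSpace X] : Prop :=
  ∀ r : ℝ, ∃ N : ℕ, ∀ x : X, (Metric.closedBall x r).encard ≤ N

/-- finite propagation -/
def FinProp {X : Type} [MetricSpace X] (T : L2 X →L[ℂ] L2 X) : Prop :=
  ∃ r : ℝ, ∀ x y, entry T x y ≠ 0 → dist x y ≤ r

/-- the uniform Roe algebra -/
def Roe (X : Type) [MetricSpace X] : Set (L2 X →L[ℂ] L2 X) := closure {T | FinProp T}

/-- ghost operators -/
def Ghost {X : Type} (T : L2 X →L[ℂ] L2 X) : Prop :=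
  ∀ ε > 0, ∃ F : Set X, F.Finite ∧ ∀ x y, (x, y) ∉ F ×ˢ F → ‖entry T x y‖ < ε

/-- sparse subsets -/
def Sparse {X : Type} [MetricSpace X] (S : Set X) : Prop :=
  ∃ P : ℕ → Set X, (∀ n, (P n).Finite ∧ (P n).Nonempty) ∧
    (∀ n m, n ≠ m → Disjoint (P n) (P m)) ∧ ⋃ n, P n = S ∧
    ∀ R : ℝ, ∃ N : ℕ, ∀ n m, n ≠ m → N ≤ n + m → ∀ x ∈ P n, ∀ y ∈ P m, R ≤ dist x y

/-- all sparse subspaces yield only compact ghost projections -/
def OnlyCompact (X : Type) [MetricSpace X] : Prop :=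
  ∀ S : Set X, Sparse S → ∀ p ∈ Roe S, IsStarProjection p → Ghost p → IsCompactOperator p

/-- coarse embeddings -/
def CoarseEmb {Y X : Type} [MetricSpace Y] [MetricSpace X] (f : Y → X) : Prop :=
  ∃ ρ σ : ℝ≥0 → ℝ≥0, Monotone ρ ∧ Monotone σ ∧ Tendsto ρ atTop atTop ∧
    ∀ y y', ρ (nndist y y') ≤ nndist (f y) (f y') ∧ nndist (f y) (f y') ≤ σ (nndist y y')

end Pool.Agent.H.MP_7884fa_an
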