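import Pool.Agent.H.MP_7884fa_an.A
import Pool.Agent.H.MP_7884fa_an.Defs

set_option autoImplicit false

open Filter Topology Set Function ContinuousLinearMap InnerProductSpace
open scoped ComplexConjugate

namespace Pool.Agent.H.MP_7884fa_an

lemma mssH {H J : Type} [NormedAddCommGroup H] [InnerProductSpace ℂ H] [Fintype J] (a b : J → H)
    (h1 : ∀ ξ, ∑ j, (‖inner ℂ (a j) ξ‖ ^ 2 + ‖inner ℂ (b j) ξ‖ ^ 2) ≤ ‖ξ‖ ^ 2)
    (h2 : ∀ j, 5 * ‖a j‖ ≤ 1 ∧ 5 * ‖b j‖ ≤ 1) :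
    ∃ χ : J → Bool, ∀ ξ, ∑ j, ‖inner ℂ (if χ j then a j else b j) ξ‖ ^ 2 ≤ 7 / 8 * ‖ξ‖ ^ 2 := by
  let E := Submodule.span ℂ (range a ∪ range b)
  have : FiniteDimensional ℂ E :=
    FiniteDimensional.span_of_finite ℂ ((finite_range a).union (finite_range b))
  let e := stdOrthonormalBasis ℂ E
  let κ : H → Fin (Module.finrank ℂ E) → ℂ := fun ξ k => inner ℂ (e k : H) ξ
  have k1 : ∀ u ∈ E, ∀ ξ, star (κ u) ⬝ᵥ κ ξ = inner ℂ u ξ := fun u hu ξ => by
    have := congrArg (fun x : E => inner ℂ (x : H) ξ) (e.sum_repr' ⟨u, hu⟩)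
    simp only [Submodule.coe_sum, Submodule.coe_smul, sum_inner, inner_smul_left] at this
    exact this
  have k2 : ∀ v, ∃ ξ, κ ξ = v ∧ ‖ξ‖ ^ 2 = ∑ k, ‖v k‖ ^ 2 := fun v => by
    have h : ∀ k, inner ℂ (e k) (∑ k, v k • e k) = v k := e.orthonormal.inner_right_fintype v
    refine ⟨(∑ k, v k • e k : E), funext h, ?_⟩
    simpa only [h, Submodule.coe_norm] using (e.sum_sq_norm_inner_right (∑ k, v k • e k)).symm
  have k3 : ∀ ξ, ∑ k, ‖κ ξ k‖ ^ 2 ≤ ‖ξ‖ ^ 2 := fun ξ =>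
    (e.orthonormal.comp_linearIsometry E.subtypeₗᵢ).sum_inner_products_le ξ
  have ha : ∀ j, a j ∈ E := fun j => Submodule.subset_span (Or.inl ⟨j, rfl⟩)
  have hb : ∀ j, b j ∈ E := fun j => Submodule.subset_span (Or.inr ⟨j, rfl⟩)
  have k4 : ∀ u ξ : H, 5 * ‖u‖ ≤ 1 → 25 * ‖inner ℂ u ξ‖ ^ 2 ≤ ‖ξ‖ ^ 2 := fun u ξ h => by
    have := norm_inner_le_norm (𝕜 := ℂ) u ξ
    have : 5 * ‖inner ℂ u ξ‖ ≤ ‖ξ‖ := by nlinarith [norm_nonneg ξ]
    nlinarith [norm_nonneg (inner ℂ u ξ)]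
  obtain ⟨χ, hχ⟩ := mss (fun j => κ (a j)) (fun j => κ (b j))
    (fun v => by
      obtain ⟨ξ, rfl, h⟩ := k2 v
      simpa only [k1 _ (ha _), k1 _ (hb _), ← h] using h1 ξ)
    (fun j v => by
      obtain ⟨ξ, rfl, h⟩ := k2 v
      rw [k1 _ (ha _), k1 _ (hb _), ← h]
      exact ⟨k4 _ _ (h2 j).1, k4 _ _ (h2 j).2⟩)
  refine ⟨χ, fun ξ => le_trans (le_of_eq (Finset.sum_congr rfl fun j _ => ?_))
    ((hχ (κ ξ)).trans (by linarith [k3 ξ]))⟩
  split_ifs
  exacts [by rw [k1 _ (ha _)], by rw [k1 _ (hb _)]]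

lemma mssI {H J : Type} [NormedAddCommGroup H] [InnerProductSpace ℂ H] (a b : J → H)
    (h1 : ∀ (s : Finset J) ξ, ∑ j ∈ s, (‖inner ℂ (a j) ξ‖ ^ 2 + ‖inner ℂ (b j) ξ‖ ^ 2) ≤ ‖ξ‖ ^ 2)
    (h2 : ∀ j, 5 * ‖a j‖ ≤ 1 ∧ 5 * ‖b j‖ ≤ 1) : ∃ χ : J → Bool, ∀ (s : Finset J) ξ,
      ∑ j ∈ s, ‖inner ℂ (if χ j then a j else b j) ξ‖ ^ 2 ≤ 7 / 8 * ‖ξ‖ ^ 2 := by
  classical
  let C : Finset J → Set (J → Bool) := fun s => {χ | ∀ ξ,
    ∑ j ∈ s, ‖inner ℂ (if χ j then a j else b j) ξ‖ ^ 2 ≤ 7 / 8 * ‖ξ‖ ^ 2}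
  have c1 : ∀ s, IsClosed (C s) := fun s => by
    simp only [C, ofPred_forall]
    exact isClosed_iInter fun ξ => isClosed_le (continuous_finsetSum s fun j _ =>
      (continuous_of_discreteTopology (f := fun x : Bool =>
        ‖inner ℂ (if x then a j else b j) ξ‖ ^ 2)).comp (continuous_apply j)) continuous_const
  have c2 : Antitone C := fun s t h χ hχ ξ =>
    (Finset.sum_le_sum_of_subset_of_nonneg h fun _ _ _ => by positivity).trans (hχ ξ)
  obtain ⟨χ, hχ⟩ := IsCompact.nonempty_iInter_of_directed_nonempty_isCompact_isClosed C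
    (directed_of_isDirected_le c2) (fun s => by
      obtain ⟨χ, hχ⟩ := mssH (fun j : s => a j) (fun j : s => b j)
        (fun ξ => (Finset.sum_coe_sort s fun j =>
          ‖inner ℂ (a j) ξ‖ ^ 2 + ‖inner ℂ (b j) ξ‖ ^ 2).trans_le (h1 s ξ)) fun j => h2 j
      refine ⟨fun j => if h : j ∈ s then χ ⟨j, h⟩ else true, fun ξ => le_trans ?_ (hχ ξ)⟩
      rw [← Finset.sum_coe_sort s]
      simp) (fun s => (c1 s).isCompact) c1
  exact ⟨χ, fun s => mem_iInter.1 hχ s⟩

variable {W X : Type}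

lemma map' (S T : L2 W →L[ℂ] L2 W) (ξ : L2 W) : (S * T) ξ = S (T ξ) := rfl

lemma inner_delta (x : W) (ξ : L2 W) : inner ℂ (delta x) ξ = ξ x := by
  classical
  rw [delta, lp.inner_single_left]
  simp

open Classical in
lemma delta_apply (x y : W) : delta x y = if y = x then 1 else 0 := by
  rw [delta, lp.single_apply, Pi.single_apply]

lemma delta_on : Orthonormal ℂ (delta : W → L2 W) := by
  classical
  exact orthonormal_iff_ite.2 fun x y => by rw [inner_delta, delta_apply]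

lemma hasSum_delta (ξ : L2 W) : HasSum (fun x => ξ x • delta x) ξ := by
  classical
  convert lp.hasSum_single (by simp) ξ using 2 with x
  rw [delta, ← lp.single_smul, smul_eq_mul, mul_one]

lemma op_ext {H : Type} [NormedAddCommGroup H] [NormedSpace ℂ H] {S T : L2 W →L[ℂ] H}
    (h : ∀ x, S (delta x) = T (delta x)) : S = T := ContinuousLinearMap.ext fun ξ =>
  (S.hasSum (hasSum_delta ξ)).unique (by simpa only [map_smul, h] using T.hasSum (hasSum_delta ξ))

lemma comp_ex {g : X → W} (hg : Injective g) : ∃ (C : L2 W →L[ℂ] L2 X) (V : L2 X →L[ℂ] L2 W),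
    adjoint C = V ∧ adjoint V = C ∧ (∀ ξ x, C ξ x = ξ (g x)) ∧ (∀ x, V (delta x) = delta (g x)) ∧
    ∀ y, (y ∈ range g → V (C (delta y)) = delta y) ∧ (y ∉ range g → C (delta y) = 0) := by
  classical
  have h : ∀ (ξ : L2 W) (s : Finset X), ∑ x ∈ s, ‖ξ (g x)‖ ^ (2 : ENNReal).toReal ≤
      ‖ξ‖ ^ (2 : ENNReal).toReal := fun ξ s => by
    rw [← Finset.sum_image (f := fun y => ‖ξ y‖ ^ (2 : ENNReal).toReal) hg.injOn]
    exact lp.sum_rpow_le_norm_rpow (by simp) ξ _
  let C : L2 W →L[ℂ] L2 X := LinearMap.mkContinuous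
    { toFun := fun ξ => ⟨fun x => ξ (g x), memℓp_gen' (h ξ)⟩
      map_add' := fun _ _ => rfl
      map_smul' := fun _ _ => rfl } 1 fun ξ =>
    (lp.norm_le_of_forall_sum_le (by simp) (norm_nonneg ξ) (h ξ)).trans (one_mul _).ge
  have c1 : ∀ ξ x, C ξ x = ξ (g x) := fun _ _ => rfl
  have c2 : ∀ x, adjoint C (delta x) = delta (g x) := fun x => ext_inner_right ℂ fun ξ => by
    rw [adjoint_inner_left, inner_delta, inner_delta, c1]
  refine ⟨C, _, rfl, adjoint_adjoint C, c1, c2, fun y => ⟨?_, fun hy => lp.ext (funext fun x => ?_)⟩⟩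
  · rintro ⟨x, rfl⟩
    rw [← c2 x]
    congr 1
    refine lp.ext (funext fun z => ?_)
    rw [c1, c2, delta_apply, delta_apply]
    simp only [hg.eq_iff]
  · rw [c1, delta_apply, if_neg fun e => hy ⟨x, e⟩]
    rfl

def FP (W : Type) [MetricSpace W] : Subalgebra ℂ (L2 W →L[ℂ] L2 W) where
  carrier := {T | FinProp T}
  mul_mem' := by
    rintro S T ⟨r, hr⟩ ⟨s, hs⟩
    refine ⟨r + s, fun x y h => ?_⟩
    by_contra h'
    refine h ((((innerSL ℂ (delta x)).comp S).hasSum (hasSum_delta (T (delta y)))).unique ?_)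
    convert hasSum_zero with z
    rw [map_smul, ← inner_delta]
    refine mul_eq_zero.2 (or_iff_not_imp_left.2 fun h1 => by_contra fun h2 => h' ?_)
    linarith [hr x z h2, hs z y h1, dist_triangle x z y]
  add_mem' := by
    rintro S T ⟨r, hr⟩ ⟨s, hs⟩
    refine ⟨max r s, fun x y h => ?_⟩
    by_contra! h'
    have h1 : entry S x y = 0 := by_contra fun e => (hr x y e).not_gt ((le_max_left _ _).trans_lt h')
    have h2 : entry T x y = 0 := by_contra fun e => (hs x y e).not_gt ((le_max_right _ _).trans_lt h')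
    exact h ((inner_add_right _ _ _).trans ((congrArg₂ _ h1 h2).trans (add_zero 0)))
  algebraMap_mem' c := ⟨0, fun x y h => by
    by_cases e : x = y
    · simp [e]
    · simp [entry, inner_delta, delta_apply, e] at h⟩

variable [MetricSpace W]

structure Nice (p : L2 W →L[ℂ] L2 W) : Prop where
  proj : IsStarProjection p
  roe : p ∈ (FP W).topologicalClosure
  gh : Tendsto (fun y => ‖p (delta y)‖) cofinite (𝓝 0)
  nc : ¬ IsCompactOperator p

lemma diag_mem {T : L2 W →L[ℂ] L2 W} (h : ∀ y, ∃ c : ℂ, T (delta y) = c • delta y) :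
    T ∈ (FP W).topologicalClosure := (FP W).le_topologicalClosure ⟨0, fun x y e => by
  obtain ⟨c, hc⟩ := h y
  by_cases e' : x = y
  · simp [e']
  · simp [entry, hc, inner_delta, delta_apply, e'] at e⟩

lemma Nice.rem {p : L2 W →L[ℂ] L2 W} (h : Nice p) (y : W) :
    ∃ q, Nice q ∧ q (delta y) = 0 ∧ ∀ z, ‖q (delta z)‖ ≤ ‖p (delta z)‖ := by
  by_cases h0 : p (delta y) = 0
  · exact ⟨p, h, h0, fun _ => le_rfl⟩
  have pp : ∀ ξ, p (p ξ) = p ξ := fun ξ => congrArg (· ξ) h.proj.isIdempotentElem.eq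
  have pa : adjoint p = p := h.proj.isSelfAdjoint
  have n0 : (‖p (delta y)‖ : ℂ) ≠ 0 := by simpa using h0
  let u := (‖p (delta y)‖⁻¹ : ℂ) • p (delta y)
  have u1 : ‖u‖ = 1 := norm_smul_inv_norm h0
  have u2 : p u = u := by simp [u, pp]
  have r1 : p * rankOne ℂ u u = rankOne ℂ u u := (comp_rankOne _ _ _).trans (by rw [u2])
  have q1 := (isStarProjection_rankOne_self (𝕜 := ℂ) u1).sub_of_mul_eq_right h.proj r1
  have q2 : ∀ z, ‖(p - rankOne ℂ u u) (delta z)‖ ≤ ‖p (delta z)‖ := fun z => by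
    have : (p - rankOne ℂ u u) (p (delta z)) = (p - rankOne ℂ u u) (delta z) := by
      simp only [sub_apply, pp, rankOne_apply]
      rw [← adjoint_inner_left, pa, u2]
    rw [← this]
    exact (le_opNorm _ _).trans (mul_le_of_le_one_left (norm_nonneg _) (q1.norm_le _))
  refine ⟨_, ⟨q1, sub_mem h.roe ?_, squeeze_zero (fun _ => norm_nonneg _) q2 h.gh, fun hc => h.nc ?_⟩,
    ?_, q2⟩
  · have : rankOne ℂ u u = ((‖p (delta y)‖⁻¹ : ℂ) * (‖p (delta y)‖⁻¹ : ℂ)) •
        (p * rankOne ℂ (delta y) (delta y) * p) := by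
      refine ContinuousLinearMap.ext fun ξ => ?_
      simp only [u, rankOne_apply, smul_apply, map', map_smul, inner_smul_left, smul_smul,
        ← adjoint_inner_left p, pa, map_inv₀, Complex.conj_ofReal]
      congr 1
      ring
    rw [this]
    refine Subalgebra.smul_mem _ (mul_mem (mul_mem h.roe (diag_mem fun z => ?_)) h.roe) _
    by_cases e : y = z
    · exact ⟨_, by rw [← e]; rfl⟩
    · exact ⟨0, by simp [inner_delta, delta_apply, e]⟩
  · have := hc.add ((isCompactOperator_of_locallyCompactSpace_dom (innerSL ℂ u)).clm_comp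
      (toSpanSingleton ℂ u))
    have e : ⇑p = ⇑(p - rankOne ℂ u u) + ⇑(toSpanSingleton ℂ u) ∘ ⇑(innerSL ℂ u) := by
      ext1 ξ
      simp
    rwa [e]
  · have : inner ℂ (p (delta y)) (delta y) = (‖p (delta y)‖ : ℂ) ^ 2 := by
      rw [← pp, ← pa, adjoint_inner_left, pa, pp]
      exact inner_self_eq_norm_sq_to_K _
    simp only [u, sub_apply, rankOne_apply, inner_smul_left, this, smul_smul, map_inv₀,
      Complex.conj_ofReal]
    rw [show (‖p (delta y)‖⁻¹ : ℂ) * ‖p (delta y)‖ ^ 2 * (‖p (delta y)‖⁻¹ : ℂ) = 1 by field_simp]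
    simp

lemma Nice.remF {p : L2 W →L[ℂ] L2 W} (h : Nice p) {F : Set W} (hF : F.Finite) :
    ∃ q, Nice q ∧ (∀ y ∈ F, q (delta y) = 0) ∧ ∀ z, ‖q (delta z)‖ ≤ ‖p (delta z)‖ := by
  induction F, hF using Set.Finite.induction_on with
  | empty => exact ⟨p, h, by simp, fun _ => le_rfl⟩
  | @insert y F _ _ ih =>
    obtain ⟨q, q1, q2, q3⟩ := ih
    obtain ⟨r, r1, r2, r3⟩ := q1.rem y
    exact ⟨r, r1, forall_mem_insert.2 ⟨r2, fun z hz => norm_le_zero_iff.1 (by simpa [q2 z hz] using r3 z)⟩,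
      fun z => (r3 z).trans (q3 z)⟩

lemma Nice.cut {p : L2 W →L[ℂ] L2 W} (h : Nice p) {g : X → W} (hg : Injective g)
    (h1 : ∀ (s : Finset X) ξ, ∑ j ∈ s, ‖p ξ (g j)‖ ^ 2 ≤ 7 / 8 * ‖ξ‖ ^ 2) :
    ∃ q, Nice q ∧ (∀ x, q (delta (g x)) = 0) ∧ ∀ z, p (delta z) = 0 → q (delta z) = 0 := by
  obtain ⟨C, V, c1, c2, c3, -, c4⟩ := comp_ex hg
  have pa : adjoint p = p := h.proj.isSelfAdjoint
  have pp := h.proj.isIdempotentElem.eq
  obtain ⟨E, hE⟩ : ∃ E : L2 W →L[ℂ] L2 W, E = V ∘L C := ⟨_, rfl⟩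
  have e1 : ∀ y ∈ range g, E (delta y) = delta y := fun y hy => hE ▸ (c4 y).1 hy
  have e2 : ∀ y ∉ range g, E (delta y) = 0 := fun y hy => by rw [hE, ContinuousLinearMap.comp_apply, (c4 y).2 hy, map_zero]
  have e3 : E * E = E := op_ext fun y => by
    by_cases hy : y ∈ range g
    · rw [map', e1 y hy, e1 y hy]
    · rw [map', e2 y hy, map_zero]
  have e4 : star E = E := by rw [hE, star_eq_adjoint, adjoint_comp, c1, c2]
  have e5 : E ∈ (FP W).topologicalClosure := diag_mem fun y => by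
    by_cases hy : y ∈ range g
    exacts [⟨1, by rw [e1 y hy, one_smul]⟩, ⟨0, by rw [e2 y hy, zero_smul]⟩]
  have k1 : ‖p * E * p‖ < 1 := by
    have a1 : ‖C ∘L p‖ ≤ 19 / 20 := opNorm_le_bound _ (by norm_num) fun ξ =>
      lp.norm_le_of_forall_sum_le (by simp) (by positivity) fun s => by
        simp only [ContinuousLinearMap.comp_apply, c3, ENNReal.toReal_ofNat, Real.rpow_ofNat]
        nlinarith [h1 s ξ, sq_nonneg ‖ξ‖]
    have a2 : p * E * p = adjoint (C ∘L p) ∘L (C ∘L p) := by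
      rw [adjoint_comp, pa, c1, hE]
      rfl
    rw [a2, norm_adjoint_comp_self]
    nlinarith [norm_nonneg (C ∘L p)]
  have g1 := mul_neg_geom_series _ k1
  have g2 := geom_series_mul_neg _ k1
  have g3 : ∑' i : ℕ, (p * E * p) ^ i ∈ (FP W).topologicalClosure :=
    (FP W).isClosed_topologicalClosure.mem_of_tendsto (summable_geometric_of_norm_lt_one k1).hasSum
      (Eventually.of_forall fun s => sum_mem fun i _ =>
        pow_mem (mul_mem (mul_mem h.roe e5) h.roe) i)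
  generalize ∑' i : ℕ, (p * E * p) ^ i = G at g1 g2 g3
  have ps : star p = p := pa
  have g4 : star G = G := by
    have := congrArg star g1
    rw [star_mul, star_sub, star_one, star_mul, star_mul, ps, e4, ← mul_assoc] at this
    rw [← mul_one (star G), ← g1, ← mul_assoc, this, one_mul]
  have m1 : p * (1 - E) * p = (1 - p * E * p) * p := by
    rw [mul_sub, mul_one, sub_mul, sub_mul, one_mul, mul_assoc (p * E), pp]
  have m2 : p * (1 - E) * p = p * (1 - p * E * p) := by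
    rw [mul_sub, mul_one, sub_mul, mul_sub, mul_one, ← mul_assoc, ← mul_assoc, pp]
  have m3 : (1 - E) * (1 - E) = 1 - E := by rw [mul_sub, mul_one, sub_mul, one_mul, e3, sub_self, sub_zero]
  have m4 : star (1 - E) = 1 - E := by rw [star_sub, star_one, e4]
  have m5 : 1 - E ∈ (FP W).topologicalClosure := sub_mem (one_mem _) e5
  have m6 : ∀ y ∈ range g, (1 - E) (delta y) = 0 := fun y hy => by simp [e1 y hy]
  have m7 : ∀ y ∉ range g, (1 - E) (delta y) = delta y := fun y hy => by simp [e2 y hy]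
  generalize 1 - E = m at *
  generalize 1 - p * E * p = S at *
  have n1 : G * (p * m * p) = p := by rw [m1, ← mul_assoc, g2, one_mul]
  have n2 : ∀ z, ‖(m * p * G * p * m) (delta z)‖ ≤ ‖m * p * G‖ * ‖p (delta z)‖ := fun z => by
    by_cases hz : z ∈ range g
    · rw [map', m6 z hz, map_zero, norm_zero]
      positivity
    · rw [map', m7 z hz]
      exact le_opNorm (m * p * G) _
  refine ⟨m * p * G * p * m, ⟨⟨?_, ?_⟩, mul_mem (mul_mem (mul_mem (mul_mem m5 h.roe) g3) h.roe) m5,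
    squeeze_zero (fun _ => norm_nonneg _) n2 (by simpa using h.gh.const_mul ‖m * p * G‖),
    fun hc => h.nc ?_⟩, fun x => by rw [map', m6 _ ⟨x, rfl⟩, map_zero],
    fun z hz => norm_le_zero_iff.1 (by simpa [hz] using n2 z)⟩
  · calc m * p * G * p * m * (m * p * G * p * m)
        = m * p * (G * (p * (m * m) * p)) * G * p * m := by simp only [mul_assoc]
      _ = m * p * G * p * m := by rw [m3, n1, mul_assoc m, pp]
  · simp only [IsSelfAdjoint, star_mul, m4, ps, g4, mul_assoc]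
  · have : G * p * m * (m * p * G * p * m) * (m * p) = p := by
      calc G * p * m * (m * p * G * p * m) * (m * p)
          = G * (p * (m * m) * p) * (G * (p * (m * m) * p)) := by simp only [mul_assoc]
        _ = p := by rw [m3, n1, pp]
    rw [← this]
    exact (hc.comp_clm (m * p)).clm_comp (G * p * m)

end Pool.Agent.H.MP_7884fa_an
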