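import Pool.Agent.H.MP_7884fa_an.B

set_option autoImplicit false

open Filter Topology Set Function ContinuousLinearMap InnerProductSpace
open scoped NNReal

namespace Pool.Agent.H.MP_7884fa_an

variable {W X : Type} [MetricSpace W]

lemma Nice.round {p : L2 W →L[ℂ] L2 W} (h : Nice p) (f : W → X) {k : ℕ}
    (hk : ∀ x, ({y | p (delta y) ≠ 0} ∩ f ⁻¹' {x}).encard ≤ k + 2) :
    ∃ q, Nice q ∧ ∀ x, ({y | q (delta y) ≠ 0} ∩ f ⁻¹' {x}).encard ≤ k + 1 := by
  classical
  obtain ⟨p', h', a1, a2⟩ := h.remF (F := {y | ¬ ‖p (delta y)‖ < 1 / 5})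
    (h.gh.eventually (gt_mem_nhds (by norm_num)))
  have a3 : ∀ y, 5 * ‖p' (delta y)‖ ≤ 1 := fun y => by
    by_cases hy : ‖p (delta y)‖ < 1 / 5
    · linarith [a2 y]
    · simp [a1 y hy]
  have pa : adjoint p' = p' := h'.proj.isSelfAdjoint
  have a4 : ∀ y ξ, inner ℂ (p' (delta y)) ξ = p' ξ y := fun y ξ => by
    rw [← inner_delta, ← adjoint_inner_left, pa]
  let J := {x // ({y | p' (delta y) ≠ 0} ∩ f ⁻¹' {x}).Nontrivial}
  choose a ha b hb hab using fun x : J => x.2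
  have inj : Injective (Sum.elim a b) := by
    rintro (i | i) (j | j) e
    · exact congrArg _ (Subtype.ext ((ha i).2.symm.trans ((congrArg f e).trans (ha j).2)))
    · obtain rfl : i = j := Subtype.ext ((ha i).2.symm.trans ((congrArg f e).trans (hb j).2))
      exact absurd e (hab i)
    · obtain rfl : i = j := Subtype.ext ((hb i).2.symm.trans ((congrArg f e).trans (ha j).2))
      exact absurd e.symm (hab i)
    · exact congrArg _ (Subtype.ext ((hb i).2.symm.trans ((congrArg f e).trans (hb j).2)))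
  obtain ⟨χ, hχ⟩ := mssI (fun j => p' (delta (a j))) (fun j => p' (delta (b j)))
    (fun s ξ => by
      have := (delta_on.comp _ inj).sum_inner_products_le (s := s.disjSum s) (p' ξ)
      rw [Finset.sum_disjSum, ← Finset.sum_add_distrib] at this
      simp only [a4, ← inner_delta]
      exact this.trans (pow_le_pow_left₀ (norm_nonneg _) ((le_opNorm _ _).trans
        (mul_le_of_le_one_left (norm_nonneg _) (h'.proj.norm_le _))) 2)) fun j => ⟨a3 _, a3 _⟩
  have c1 : ∀ j, (if χ j then a j else b j) ∈ {y | p' (delta y) ≠ 0} ∩ f ⁻¹' {j.1} := fun j => by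
    split_ifs
    exacts [ha j, hb j]
  obtain ⟨q, q1, q2, q3⟩ := h'.cut (g := fun j => if χ j then a j else b j)
    (fun i j e => Subtype.ext ((c1 i).2.symm.trans ((congrArg f e).trans (c1 j).2))) fun s ξ => by
      simpa only [← a4, apply_ite delta, apply_ite p'] using hχ s ξ
  refine ⟨q, q1, fun x => ?_⟩
  have s1 : {y | q (delta y) ≠ 0} ∩ f ⁻¹' {x} ⊆ {y | p' (delta y) ≠ 0} ∩ f ⁻¹' {x} :=
    inter_subset_inter_left _ fun y hy e => hy (q3 y e)
  have s2 : {y | p' (delta y) ≠ 0} ∩ f ⁻¹' {x} ⊆ {y | p (delta y) ≠ 0} ∩ f ⁻¹' {x} :=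
    inter_subset_inter_left _ fun y hy e => hy (norm_le_zero_iff.1 (by simpa [e] using a2 y))
  by_cases hx : ({y | p' (delta y) ≠ 0} ∩ f ⁻¹' {x}).Nontrivial
  · have := ((encard_diff_singleton_add_one (c1 ⟨x, hx⟩)).trans_le (encard_le_encard s2)).trans (hk x)
    rw [show (k : ℕ∞) + 2 = k + 1 + 1 by ring] at this
    exact (encard_le_encard (subset_diff_singleton s1 fun e => e.1 (q2 ⟨x, hx⟩))).trans
      ((ENat.add_le_add_iff_right ENat.one_ne_top).1 this)
  · exact (encard_le_one_iff_subsingleton.2 ((not_nontrivial_iff.1 hx).anti s1)).trans le_add_self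

lemma Nice.inj {p : L2 W →L[ℂ] L2 W} (h : Nice p) (f : W → X) (k : ℕ)
    (hk : ∀ x, ({y | p (delta y) ≠ 0} ∩ f ⁻¹' {x}).encard ≤ k + 1) :
    ∃ q, Nice q ∧ InjOn f {y | q (delta y) ≠ 0} := by
  induction k generalizing p with
  | zero => exact ⟨p, h, fun y hy z hz e =>
      encard_le_one_iff.1 ((hk (f z)).trans_eq (by simp)) y z ⟨hy, e⟩ ⟨hz, rfl⟩⟩
  | succ k ih =>
    obtain ⟨q, q1, q2⟩ := h.round f (k := k) fun x => (hk x).trans_eq (by push_cast; ring)
    exact ih q1 q2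

lemma Nice.infinite {p : L2 W →L[ℂ] L2 W} (h : Nice p) : {y | p (delta y) ≠ 0}.Infinite := fun hf => by
  obtain ⟨q, q1, q2, q3⟩ := h.remF hf
  refine q1.nc ?_
  rw [show q = 0 from op_ext fun y => by
    by_cases hy : p (delta y) = 0
    exacts [norm_le_zero_iff.1 (by simpa [hy] using q3 y), q2 y hy]]
  exact isCompactOperator_zero

lemma Nice.trans [MetricSpace X] {q : L2 W →L[ℂ] L2 W} (h : Nice q) {g : X → W} (hg : Injective g)
    (h1 : ∀ y, q (delta y) ≠ 0 → y ∈ range g)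
    (h2 : ∀ r : ℝ, ∃ s : ℝ, ∀ x x', dist (g x) (g x') ≤ r → dist x x' ≤ s) :
    ∃ p ∈ Roe X, IsStarProjection p ∧ Ghost p ∧ ¬ IsCompactOperator p := by
  obtain ⟨C, V, c1, c2, -, c3, c4⟩ := comp_ex hg
  have qa : adjoint q = q := h.proj.isSelfAdjoint
  have en : ∀ T x x', entry (C ∘L T ∘L V) x x' = entry T (g x) (g x') := fun T x x' => by
    simp only [entry, ContinuousLinearMap.comp_apply, c3]
    rw [← adjoint_inner_left, c1, c3]
  have e1 : q ∘L V ∘L C = q := op_ext fun y => by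
    simp only [ContinuousLinearMap.comp_apply]
    by_cases hy : y ∈ range g
    · rw [(c4 y).1 hy]
    · rw [(c4 y).2 hy, map_zero, map_zero, not_not.1 (mt (h1 y) hy)]
  have e2 : ∀ ξ, q (V (C ξ)) = q ξ := fun ξ => congrArg (· ξ) e1
  have e3 : ∀ ξ, V (C (q ξ)) = q ξ := fun ξ => by
    have := congrArg adjoint e1
    rw [adjoint_comp, adjoint_comp, c1, c2, qa] at this
    exact congrArg (· ξ) this
  have qq : ∀ ξ, q (q ξ) = q ξ := fun ξ => congrArg (· ξ) h.proj.isIdempotentElem.eq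
  refine ⟨C ∘L q ∘L V, map_mem_closure (f := fun T : L2 W →L[ℂ] L2 W => C ∘L T ∘L V) (by fun_prop)
    h.roe ?_, ⟨ContinuousLinearMap.ext fun ξ => ?_, ?_⟩, fun ε hε => ?_, fun hc => h.nc ?_⟩
  · rintro T ⟨r, hr⟩
    obtain ⟨s, hs⟩ := h2 r
    exact ⟨s, fun x x' e => hs _ _ (hr _ _ (en T x x' ▸ e))⟩
  · simp only [map', ContinuousLinearMap.comp_apply, e2, qq]
  · rw [IsSelfAdjoint, star_eq_adjoint, adjoint_comp, adjoint_comp, c1, c2, qa]
    rfl
  · refine ⟨g ⁻¹' {y | ¬ ‖q (delta y)‖ < ε}, Finite.preimage hg.injOn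
      (h.gh.eventually (gt_mem_nhds hε)), fun x x' e => ?_⟩
    rw [en, entry]
    rcases not_and_or.1 e with e | e
    · rw [← adjoint_inner_left, qa]
      exact ((norm_inner_le_norm _ _).trans_eq (by rw [delta_on.1, mul_one])).trans_lt (not_not.1 e)
    · exact ((norm_inner_le_norm _ _).trans_eq (by rw [delta_on.1, one_mul])).trans_lt (not_not.1 e)
  · have e : ⇑q = V ∘ (⇑(C ∘L q ∘L V) ∘ C) := funext fun ξ => by
      simp only [Function.comp_apply, ContinuousLinearMap.comp_apply, e2, e3]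
    rw [e]
    exact (hc.comp_clm C).clm_comp V

theorem main {X Y : Type} [MetricSpace X] [MetricSpace Y] (hY : ULF Y) {f : Y → X}
    (hf : CoarseEmb f) (hX : OnlyCompact X) : OnlyCompact Y := by
  classical
  rintro S ⟨P, p1, p2, rfl, p4⟩ p h1 h2 h3
  by_contra h4
  obtain ⟨ρ, σ, -, r2, r3, r4⟩ := hf
  have far : ∀ R : ℝ, ∃ R' : ℝ, ∀ y y', R' ≤ dist y y' → R ≤ dist (f y) (f y') := fun R => by
    obtain ⟨t, ht⟩ := eventually_atTop.1 (r3.eventually_ge_atTop R.toNNReal)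
    exact ⟨t, fun y y' e => (Real.le_coe_toNNReal R).trans
      (NNReal.coe_le_coe.2 ((ht (nndist y y') e).trans (r4 y y').1))⟩
  have h : Nice p := ⟨h2, h1, Metric.tendsto_nhds.2 fun ε hε => by
    obtain ⟨F, f1, f2⟩ := h3 (ε ^ 2) (by positivity)
    refine f1.subset fun y hy => by_contra fun hy' => hy ?_
    have := f2 y y fun e => hy' e.1
    have pa : adjoint p = p := h2.isSelfAdjoint
    rw [entry, ← show p (p (delta y)) = p (delta y) from congrArg (· (delta y)) h2.isIdempotentElem.eq,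
      ← adjoint_inner_left, pa, inner_self_eq_norm_sq_to_K] at this
    simpa using lt_of_pow_lt_pow_left₀ 2 hε.le (by simpa using this), h4⟩
  obtain ⟨R, hR⟩ := far 1
  obtain ⟨N, hN⟩ := hY R
  obtain ⟨q, q1, q2⟩ := h.inj (fun y => f y) N fun x => by
    rcases ({y | p (delta y) ≠ 0} ∩ (fun y : ⋃ n, P n => f y) ⁻¹' {x}).eq_empty_or_nonempty with
      e | ⟨y, hy⟩
    · simp [e]
    refine le_trans (encard_le_encard_of_injOn (f := Subtype.val) (fun z hz => ?_)
      Subtype.val_injective.injOn) ((hN y).trans le_self_add)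
    by_contra e
    have := hR z y (not_le.1 e).le
    rw [show f z = f y from hz.2.trans hy.2.symm, dist_self] at this
    linarith
  have inf := q1.infinite
  set A := {y | q (delta y) ≠ 0}
  let I := fun n => ∃ y ∈ A, y.1 ∈ P n
  have hI : (setOf I).Infinite := fun hI => inf ((Finite.preimage Subtype.val_injective.injOn
    (hI.biUnion fun n _ => (p1 n).1)).subset fun y hy => by
      obtain ⟨n, hn⟩ := mem_iUnion.1 y.2
      exact mem_biUnion (show n ∈ setOf I from ⟨y, hy, hn⟩) hn)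
  have sm := Nat.nth_strictMono hI
  choose g g1 g2 using fun x : (fun y : ⋃ n, P n => f y) '' A => x.2
  obtain ⟨r, a1, a2, a3, a4⟩ := q1.trans (g := g)
    (fun x x' e => Subtype.ext ((g2 x).symm.trans (e ▸ g2 x')))
    (fun y hy => ⟨⟨_, y, hy, rfl⟩, q2 (g1 _) hy (g2 _)⟩) fun r => ⟨σ r.toNNReal, fun x x' e => by
      rw [Subtype.dist_eq, ← g2, ← g2]
      exact NNReal.coe_le_coe.2 ((r4 _ _).2.trans (r2 (NNReal.coe_le_coe.1
        (e.trans (Real.le_coe_toNNReal r)))))⟩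
  refine a4 (hX _ ⟨fun n => (fun y : ⋃ n, P n => f y) '' (A ∩ Subtype.val ⁻¹' P (Nat.nth I n)),
    fun n => ⟨((Finite.preimage Subtype.val_injective.injOn (p1 _).1).inter_of_right _).image _,
      Set.Nonempty.image _ (Nat.nth_mem_of_infinite hI n)⟩, fun n m e => ?_, ?_, fun R => ?_⟩
    r a1 a2 a3)
  · refine Set.disjoint_left.2 ?_
    rintro _ ⟨y, hy, rfl⟩ ⟨z, hz, e'⟩
    obtain rfl := q2 hz.1 hy.1 e'
    exact Set.disjoint_left.1 (p2 _ _ (sm.injective.ne e)) hy.2 hz.2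
  · rw [← image_iUnion, ← inter_iUnion, inter_eq_left.2 fun y hy => ?_]
    obtain ⟨n, hn⟩ := mem_iUnion.1 y.2
    obtain ⟨k, hk⟩ := (Nat.range_nth_of_infinite hI).ge (show n ∈ setOf I from ⟨y, hy, hn⟩)
    exact mem_iUnion.2 ⟨k, show y.1 ∈ P _ from hk ▸ hn⟩
  · obtain ⟨R', hR'⟩ := far R
    obtain ⟨M, hM⟩ := p4 R'
    refine ⟨M, fun n m e e' => ?_⟩
    rintro _ ⟨y, hy, rfl⟩ _ ⟨z, hz, rfl⟩
    exact hR' _ _ (hM _ _ (sm.injective.ne e) (e'.trans (add_le_add sm.le_apply sm.le_apply))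
      _ hy.2 _ hz.2)

end Pool.Agent.H.MP_7884fa_an
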